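import Mathlib

set_option autoImplicit false

/-!
Schwarz lemma for entire functions vanishing to high order at several points, and Gaussian
integers inside `ℂ`.
-/

namespace Pool.Agent.BakerQi

open Complex Finset

/-- An entire function with a zero of order `≥ τ` at `a` is divisible by `(z - a)^τ`. -/
theorem exists_div {f : ℂ → ℂ} (hf : Differentiable ℂ f) (a : ℂ) (τ : ℕ)
    (h : (τ : ℕ∞) ≤ analyticOrderAt f a) :
    ∃ g : ℂ → ℂ, Differentiable ℂ g ∧ ∀ z, f z = (z - a) ^ τ * g z := by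
  induction τ with
  | zero => exact ⟨f, hf, fun z => by simp⟩
  | succ τ ih =>
    obtain ⟨g, hg, hfg⟩ := ih (le_trans (by exact_mod_cast Nat.le_succ τ) h)
    have hga : g a = 0 := by
      by_contra hne
      have e : f = (fun z => (z - a) ^ τ) * g := funext hfg
      have han : AnalyticAt ℂ (fun z : ℂ => (z - a) ^ τ) a := by fun_prop
      have hgan : AnalyticAt ℂ g a := hg.analyticAt a
      rw [e, analyticOrderAt_mul han hgan, hgan.analyticOrderAt_eq_zero.2 hne, add_zero] at h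
      have h2 : analyticOrderAt (fun z : ℂ => (z - a) ^ τ) a = τ := by
        rw [han.analyticOrderAt_eq_natCast]
        exact ⟨fun _ => 1, analyticAt_const, one_ne_zero, by simp⟩
      rw [h2] at h
      have h3 : τ + 1 ≤ τ := by exact_mod_cast h
      omega
    refine ⟨dslope g a, ?_, fun z => ?_⟩
    · rw [← differentiableOn_univ] at hg ⊢
      exact (Complex.differentiableOn_dslope (by simp)).2 hg
    · rw [hfg z, pow_succ, mul_assoc]
      congr 1
      have := sub_smul_dslope g a z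
      rw [smul_eq_mul] at this
      rw [this, hga, sub_zero]

/-- The same for several points. -/
theorem exists_div_many {f : ℂ → ℂ} (hf : Differentiable ℂ f) (τ S : ℕ)
    (h : ∀ s < S, (τ : ℕ∞) ≤ analyticOrderAt f (s : ℂ)) :
    ∃ g : ℂ → ℂ, Differentiable ℂ g ∧
      ∀ z, f z = (∏ s ∈ range S, (z - (s : ℂ)) ^ τ) * g z := by
  induction S with
  | zero => exact ⟨f, hf, fun z => by simp⟩
  | succ S ih =>
    obtain ⟨g, hg, hfg⟩ := ih fun s hs => h s (by omega)
    have han : AnalyticAt ℂ (fun z : ℂ => ∏ s ∈ range S, (z - (s : ℂ)) ^ τ) (S : ℂ) := by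
      fun_prop
    have hne : (∏ s ∈ range S, ((S : ℂ) - (s : ℂ)) ^ τ) ≠ 0 := by
      rw [Finset.prod_ne_zero_iff]
      intro s hs
      apply pow_ne_zero
      rw [sub_ne_zero]
      have := mem_range.1 hs
      exact_mod_cast (by omega : S ≠ s)
    have ho : (τ : ℕ∞) ≤ analyticOrderAt g (S : ℂ) := by
      have h1 := h S (by omega)
      have e : f = (fun z => ∏ s ∈ range S, (z - (s : ℂ)) ^ τ) * g := funext hfg
      rw [e, analyticOrderAt_mul han (hg.analyticAt _), han.analyticOrderAt_eq_zero.2 hne,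
        zero_add] at h1
      exact h1
    obtain ⟨g', hg', hgg'⟩ := exists_div hg (S : ℂ) τ ho
    refine ⟨g', hg', fun z => ?_⟩
    rw [hfg z, hgg' z, prod_range_succ, mul_assoc]

/-- Schwarz lemma: if `f` vanishes to order `≥ τ` at `0, 1, …, S - 1`, then at points `s'` of
`[0, S')` it is small. -/
theorem schwarz {f : ℂ → ℂ} (hf : Differentiable ℂ f) (τ S S' : ℕ) (hS : S ≤ S') (hS' : 0 < S')
    (h : ∀ s < S, ∀ r < τ, iteratedDeriv r f (s : ℂ) = 0) (M : ℝ)
    (hM : ∀ z : ℂ, ‖z‖ ≤ 3 * S' → ‖f z‖ ≤ M) (s' : ℕ) (hs' : s' < S') :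
    ‖f (s' : ℂ)‖ ≤ M / 2 ^ (τ * S) := by
  obtain ⟨g, hg, hfg⟩ := exists_div_many hf τ S fun s hs => by
    rw [natCast_le_analyticOrderAt_iff_iteratedDeriv_eq_zero (hf.analyticAt _)]
    exact h s hs
  have hSp : (0 : ℝ) < S' := by exact_mod_cast hS'
  have hM0 : 0 ≤ M := le_trans (norm_nonneg _) (hM 0 (by simp))
  -- lower bound for the product on the circle
  have hlow : ∀ z : ℂ, ‖z‖ = 3 * S' → (2 * (S' : ℝ)) ^ (τ * S) ≤
      ‖∏ s ∈ range S, (z - (s : ℂ)) ^ τ‖ := by
    intro z hz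
    rw [norm_prod, mul_comm τ S, pow_mul, ← card_range S, ← Finset.prod_const, card_range,
      ← Finset.prod_pow]
    refine Finset.prod_le_prod (fun _ _ => by positivity) fun s hs => ?_
    rw [norm_pow]
    have hs1 : s < S := mem_range.1 hs
    have hs2 : (s : ℝ) ≤ S' := by exact_mod_cast (by omega : s ≤ S')
    refine pow_le_pow_left₀ (by positivity) ?_ _
    have : ‖z‖ - ‖(s : ℂ)‖ ≤ ‖z - (s : ℂ)‖ := norm_sub_norm_le _ _
    rw [hz, Complex.norm_natCast] at this
    linarith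
  have hup : ‖∏ s ∈ range S, ((s' : ℂ) - (s : ℂ)) ^ τ‖ ≤ (S' : ℝ) ^ (τ * S) := by
    rw [norm_prod, mul_comm τ S, pow_mul, ← card_range S, ← Finset.prod_const, card_range,
      ← Finset.prod_pow]
    refine Finset.prod_le_prod (fun _ _ => norm_nonneg _) fun s hs => ?_
    rw [norm_pow]
    have hs1 : s < S := mem_range.1 hs
    refine pow_le_pow_left₀ (norm_nonneg _) ?_ _
    have e : ((s' : ℂ) - (s : ℂ)) = ((s' - s : ℝ) : ℂ) := by push_cast; ring
    rw [e, Complex.norm_real, Real.norm_eq_abs, abs_le]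
    have hs2 : (s : ℝ) ≤ S' := by exact_mod_cast (by omega : s ≤ S')
    have hs3 : (s' : ℝ) ≤ S' := by exact_mod_cast hs'.le
    have : (0 : ℝ) ≤ s := by positivity
    have : (0 : ℝ) ≤ s' := by positivity
    constructor <;> linarith
  -- maximum principle for `g`
  have hgb : ‖g (s' : ℂ)‖ ≤ M / (2 * (S' : ℝ)) ^ (τ * S) := by
    have hb : Bornology.IsBounded (Metric.ball (0 : ℂ) (3 * S')) := Metric.isBounded_ball
    refine Complex.norm_le_of_forall_mem_frontier_norm_le hb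
      (hg.diffContOnCl) (fun z hz => ?_) (subset_closure ?_)
    · have hz' : ‖z‖ = 3 * S' := by
        have := frontier_ball (0 : ℂ) (by positivity : (3 * (S' : ℝ)) ≠ 0)
        rw [this] at hz
        simpa using hz
      have h1 := hM z hz'.le
      have h2 := hlow z hz'
      have hp : (0 : ℝ) < (2 * (S' : ℝ)) ^ (τ * S) := by positivity
      rw [le_div_iff₀ hp]
      rw [hfg z, norm_mul] at h1
      calc ‖g z‖ * (2 * (S' : ℝ)) ^ (τ * S) ≤
          ‖g z‖ * ‖∏ s ∈ range S, (z - (s : ℂ)) ^ τ‖ := by gcongr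
        _ ≤ M := by rw [mul_comm]; exact h1
    · rw [Metric.mem_ball, dist_zero_right, Complex.norm_natCast]
      have : (s' : ℝ) < S' := by exact_mod_cast hs'
      linarith
  rw [hfg, norm_mul]
  calc ‖∏ s ∈ range S, ((s' : ℂ) - (s : ℂ)) ^ τ‖ * ‖g (s' : ℂ)‖
      ≤ (S' : ℝ) ^ (τ * S) * (M / (2 * (S' : ℝ)) ^ (τ * S)) := by gcongr
    _ = M / 2 ^ (τ * S) := by
      rw [mul_pow]
      field_simp

/-! ### Gaussian integers -/

/-- The Gaussian integers inside `ℂ`. -/
def GI : Subring ℂ := GaussianInt.toComplex.range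

theorem natCast_mem_GI (n : ℕ) : (n : ℂ) ∈ GI := natCast_mem GI n

theorem one_le_norm {x : ℂ} (hx : x ∈ GI) (h0 : x ≠ 0) : 1 ≤ ‖x‖ := by
  obtain ⟨z, rfl⟩ := hx
  have hz : z ≠ 0 := by
    rintro rfl
    exact h0 (map_zero _)
  have h1 : (0 : ℤ) < z.norm := GaussianInt.norm_pos.2 hz
  have h2 : ((z.norm : ℤ) : ℝ) = Complex.normSq (z : ℂ) := GaussianInt.intCast_real_norm z
  have h3 : (1 : ℝ) ≤ Complex.normSq (z : ℂ) := by
    rw [← h2]; exact_mod_cast h1
  rw [Complex.normSq_eq_norm_sq] at h3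
  have h4 : (0 : ℝ) ≤ ‖(z : ℂ)‖ := norm_nonneg _
  change 1 ≤ ‖(z : ℂ)‖
  nlinarith

end Pool.Agent.BakerQi
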