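import Mathlib

set_option autoImplicit false

/-!
Exponential polynomials in an integer variable: `∑ Q_θ(s) θ^s = 0` for sufficiently many
consecutive integers `s ≥ 0` forces all `Q_θ` to vanish.
-/

namespace Pool.Agent.BakerQi

open Finset Polynomial

/-- The Euler operator `X d/dX`. -/
noncomputable def eul (P : ℂ[X]) : ℂ[X] := X * derivative P

theorem eul_sum {ι : Type*} (s : Finset ι) (f : ι → ℂ[X]) : eul (∑ i ∈ s, f i) =
    ∑ i ∈ s, eul (f i) := by
  unfold eul
  rw [derivative_sum, Finset.mul_sum]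

theorem eul_iter_sum {ι : Type*} (s : Finset ι) (f : ι → ℂ[X]) (j : ℕ) :
    eul^[j] (∑ i ∈ s, f i) = ∑ i ∈ s, eul^[j] (f i) := by
  induction j generalizing f with
  | zero => simp
  | succ j ih =>
    rw [Function.iterate_succ_apply, eul_sum, ih]
    simp only [Function.iterate_succ_apply]

theorem eul_iter_monomial (j n : ℕ) (a : ℂ) :
    eul^[j] (monomial n a) = monomial n ((n : ℂ) ^ j * a) := by
  induction j generalizing a with
  | zero => simp
  | succ j ih =>
    rw [Function.iterate_succ_apply]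
    have : eul (monomial n a) = monomial n ((n : ℂ) * a) := by
      unfold eul
      rw [derivative_monomial]
      rcases n with _ | n
      · simp
      · rw [X_mul_monomial, Nat.add_sub_cancel, mul_comm]
    rw [this, ih]
    congr 1
    ring

theorem dvd_eul {θ : ℂ} {e : ℕ} {P : ℂ[X]} (h : (X - C θ) ^ (e + 1) ∣ P) :
    (X - C θ) ^ e ∣ eul P := by
  have := Polynomial.pow_sub_one_dvd_derivative_of_pow_dvd h
  rw [Nat.add_sub_cancel] at this
  exact Dvd.dvd.mul_left this _

theorem eul_iter_eval_zero {θ : ℂ} (j : ℕ) : ∀ (e : ℕ) (P : ℂ[X]), (X - C θ) ^ e ∣ P → j < e →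
    (eul^[j] P).eval θ = 0 := by
  induction j with
  | zero =>
    intro e P h he
    obtain ⟨R, rfl⟩ := h
    simp only [Function.iterate_zero, id, eval_mul, eval_pow, eval_sub, eval_X, eval_C, sub_self]
    rw [zero_pow (by omega), zero_mul]
  | succ j ih =>
    intro e P h he
    rw [Function.iterate_succ_apply]
    obtain ⟨e, rfl⟩ : ∃ e', e = e' + 1 := ⟨e - 1, by omega⟩
    exact ih e _ (dvd_eul h) (by omega)

theorem eul_iter_eval {θ : ℂ} (d : ℕ) : ∀ R : ℂ[X],
    (eul^[d] ((X - C θ) ^ d * R)).eval θ = (d.factorial : ℂ) * θ ^ d * R.eval θ := by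
  induction d with
  | zero => intro R; simp
  | succ d ih =>
    intro R
    rw [Function.iterate_succ_apply]
    have : eul ((X - C θ) ^ (d + 1) * R) =
        (X - C θ) ^ d * (((d + 1 : ℕ) : ℂ[X]) * X * R + (X - C θ) * X * derivative R) := by
      unfold eul
      rw [derivative_mul, derivative_X_sub_C_pow, Nat.add_sub_cancel, map_natCast]
      ring
    rw [this, ih]
    simp only [eval_add, eval_mul, eval_natCast, eval_X, eval_sub, eval_C, sub_self]
    rw [Nat.factorial_succ]
    push_cast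
    ring

/-- The vanishing statement for exponential polynomials of an integer variable. -/
theorem expsum_eq_zero (Θ : Finset ℂ) (h0 : ∀ θ ∈ Θ, θ ≠ 0) (D : ℕ) (Q : ℂ → ℂ[X])
    (hQ : ∀ θ ∈ Θ, ∀ i, D ≤ i → (Q θ).coeff i = 0)
    (h : ∀ s : ℕ, s < Θ.card * D → ∑ θ ∈ Θ, (Q θ).eval (s : ℂ) * θ ^ s = 0) :
    ∀ θ ∈ Θ, Q θ = 0 := by
  classical
  -- the functional
  have key : ∀ P : ℂ[X], (∀ s, Θ.card * D ≤ s → P.coeff s = 0) →
      ∑ θ ∈ Θ, ∑ j ∈ range D, (Q θ).coeff j * (eul^[j] P).eval θ = 0 := by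
    intro P hP
    have hPs : P = ∑ s ∈ range (Θ.card * D), monomial s (P.coeff s) := by
      ext n
      rw [finsetSum_coeff]
      simp only [coeff_monomial]
      rw [Finset.sum_ite_eq']
      split_ifs with hn
      · rfl
      · exact hP n (by simpa using hn)
    have h1 : ∀ θ ∈ Θ, ∑ j ∈ range D, (Q θ).coeff j * (eul^[j] P).eval θ =
        ∑ s ∈ range (Θ.card * D), P.coeff s * ((Q θ).eval (s : ℂ) * θ ^ s) := by
      intro θ hθ
      have h2 : ∀ j, (eul^[j] P).eval θ =
          ∑ s ∈ range (Θ.card * D), (s : ℂ) ^ j * P.coeff s * θ ^ s := by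
        intro j
        conv_lhs => rw [hPs]
        rw [eul_iter_sum, eval_finsetSum]
        refine Finset.sum_congr rfl fun s _ => ?_
        rw [eul_iter_monomial, eval_monomial]
      have h3 : ∀ s : ℕ, (Q θ).eval (s : ℂ) = ∑ j ∈ range D, (Q θ).coeff j * (s : ℂ) ^ j := by
        intro s
        rw [eval_eq_sum_range' (n := max D ((Q θ).natDegree + 1)) (by simp)]
        symm
        refine Finset.sum_subset (by intro i hi; simp at hi ⊢; omega) fun i _ hi => ?_
        rw [mem_range, not_lt] at hi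
        rw [hQ θ hθ i hi, zero_mul]
      simp only [h2, h3, Finset.mul_sum, Finset.sum_mul]
      rw [Finset.sum_comm]
      refine Finset.sum_congr rfl fun s _ => Finset.sum_congr rfl fun j _ => ?_
      ring
    rw [Finset.sum_congr rfl h1, Finset.sum_comm]
    refine Finset.sum_eq_zero fun s hs => ?_
    rw [← Finset.mul_sum, h s (mem_range.1 hs), mul_zero]
  intro θ₀ hθ₀
  by_contra hne
  set d := (Q θ₀).natDegree with hd
  have hlead : (Q θ₀).coeff d ≠ 0 := by
    rw [hd]; exact Polynomial.leadingCoeff_ne_zero.2 hne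
  have hdD : d < D := by
    by_contra hge
    exact hlead (hQ θ₀ hθ₀ d (by omega))
  set R : ℂ[X] := ∏ θ ∈ Θ.erase θ₀, (X - C θ) ^ D with hR
  have hRe : R.eval θ₀ ≠ 0 := by
    rw [hR, eval_prod, Finset.prod_ne_zero_iff]
    intro θ hθ
    rw [eval_pow, eval_sub, eval_X, eval_C]
    exact pow_ne_zero _ (sub_ne_zero.2 (Finset.mem_erase.1 hθ).1.symm)
  have hRd : R.natDegree = (Θ.card - 1) * D := by
    rw [hR, natDegree_prod_of_monic _ _ fun θ _ => (monic_X_sub_C θ).pow D]
    simp only [natDegree_pow, natDegree_X_sub_C, mul_one]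
    rw [Finset.sum_const, Finset.card_erase_of_mem hθ₀, smul_eq_mul]
  have hcard : 0 < Θ.card := Finset.card_pos.2 ⟨θ₀, hθ₀⟩
  have hPd : ∀ s, Θ.card * D ≤ s → ((X - C θ₀) ^ d * R).coeff s = 0 := by
    intro s hs
    apply coeff_eq_zero_of_natDegree_lt
    refine lt_of_le_of_lt natDegree_mul_le ?_
    rw [natDegree_pow, natDegree_X_sub_C, mul_one, hRd]
    have : Θ.card * D = (Θ.card - 1) * D + D := by
      obtain ⟨c, hc⟩ : ∃ c, Θ.card = c + 1 := ⟨Θ.card - 1, by omega⟩
      rw [hc, Nat.add_sub_cancel]; ring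
    omega
  have hk := key _ hPd
  rw [← Finset.add_sum_erase _ _ hθ₀] at hk
  have hz : ∑ θ ∈ Θ.erase θ₀, ∑ j ∈ range D,
      (Q θ).coeff j * (eul^[j] ((X - C θ₀) ^ d * R)).eval θ = 0 := by
    refine Finset.sum_eq_zero fun θ hθ => Finset.sum_eq_zero fun j hj => ?_
    rw [eul_iter_eval_zero j D _ ?_ (mem_range.1 hj), mul_zero]
    exact Dvd.dvd.mul_left (Finset.dvd_prod_of_mem (fun θ => (X - C θ) ^ D) hθ) _
  rw [hz, add_zero] at hk
  rw [Finset.sum_eq_single d] at hk
  · rw [eul_iter_eval] at hk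
    have h5 : ((d.factorial : ℂ) * θ₀ ^ d * R.eval θ₀) ≠ 0 :=
      mul_ne_zero (mul_ne_zero (by exact_mod_cast d.factorial_ne_zero)
        (pow_ne_zero _ (h0 θ₀ hθ₀))) hRe
    exact (mul_ne_zero hlead h5) hk
  · intro j _ hj
    rcases lt_or_gt_of_ne hj with h6 | h6
    · rw [eul_iter_eval_zero j d _ (Dvd.intro _ rfl) h6, mul_zero]
    · rw [coeff_eq_zero_of_natDegree_lt h6, zero_mul]
  · intro h6
    exact absurd (mem_range.2 hdD) h6

end Pool.Agent.BakerQi
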