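import Mathlib
import Pool.Agent.BakerQi.Schwarz

set_option autoImplicit false

/-!
The family of entire functions of one variable attached to a linear form in logarithms, its
derivatives, and the arithmetic and analytic estimates.
-/

namespace Pool.Agent.BakerQi

open Complex Finset Polynomial

/-- The data of a hypothetical counterexample to Baker's theorem: logarithms `lam j` and `mu` of
nonzero elements of `ℚ(i)`, with `mu = beta0 + ∑ beta j * lam j`. -/
structure Data where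
  m : ℕ
  lam : Fin m → ℂ
  mu : ℂ
  beta : Fin m → ℂ
  beta0 : ℂ
  a : ℕ
  b : ℕ
  ha : 0 < a
  hb : 0 < b
  hlam : ∀ j, (a : ℂ) * exp (lam j) ∈ GI
  hmu : (a : ℂ) * exp mu ∈ GI
  hbeta : ∀ j, (b : ℂ) * beta j ∈ GI
  hbeta0 : (b : ℂ) * beta0 ∈ GI
  rel : mu = beta0 + ∑ j, beta j * lam j
  b0 : beta0 ≠ 0
  indep : ∀ k l : Fin m → ℕ, ∏ j, exp (lam j) ^ k j = ∏ j, exp (lam j) ^ l j → k = l

/-- Indices of the monomials. -/
abbrev Idx (m D0 D1 : ℕ) := Fin D0 × (Fin m → Fin D1) × Fin D1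

/-- `(d/dz + c)^σ z^k0`. -/
noncomputable def upoly (c : ℂ) (σ k0 : ℕ) : ℂ[X] :=
  (fun P => derivative P + C c * P)^[σ] (X ^ k0)

theorem upoly_succ (c : ℂ) (σ k0 : ℕ) :
    upoly c (σ + 1) k0 = derivative (upoly c σ k0) + C c * upoly c σ k0 := by
  rw [upoly, Function.iterate_succ_apply', ← upoly]

theorem upoly_zero (c : ℂ) (k0 : ℕ) : upoly c 0 k0 = X ^ k0 := rfl

namespace Data

variable (B : Data) {D0 D1 : ℕ}

/-- The frequency attached to an index. -/
noncomputable def freq (k : Idx B.m D0 D1) : ℂ :=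
  ∑ j, ((k.2.1 j : ℕ) : ℂ) * B.lam j + ((k.2.2 : ℕ) : ℂ) * B.mu

/-- The algebraic factor. -/
noncomputable def cfac (k : Idx B.m D0 D1) (σ : Option (Fin B.m) → ℕ) : ℂ :=
  ∏ j, (((k.2.1 j : ℕ) : ℂ) + ((k.2.2 : ℕ) : ℂ) * B.beta j) ^ σ (some j)

/-- The polynomial factor. -/
noncomputable def ufac (k : Idx B.m D0 D1) (σ : ℕ) : ℂ[X] :=
  upoly (((k.2.2 : ℕ) : ℂ) * B.beta0) σ (k.1 : ℕ)

/-- One term of the auxiliary function. -/
noncomputable def term (k : Idx B.m D0 D1) (σ : Option (Fin B.m) → ℕ) (z : ℂ) : ℂ :=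
  B.cfac k σ * (B.ufac k (σ none)).eval z * exp (B.freq k * z)

/-- The auxiliary function and its derivatives. -/
noncomputable def phi (p : Idx B.m D0 D1 → ℤ) (σ : Option (Fin B.m) → ℕ) (z : ℂ) : ℂ :=
  ∑ k, (p k : ℂ) * B.term k σ z

/-- The coefficients of the derivation along the line. -/
noncomputable def eta : Option (Fin B.m) → ℂ
  | none => 1
  | some j => B.lam j

theorem cfac_add_none (k : Idx B.m D0 D1) (σ : Option (Fin B.m) → ℕ) :
    B.cfac k (σ + Pi.single none 1) = B.cfac k σ := by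
  unfold cfac
  refine Finset.prod_congr rfl fun j _ => ?_
  simp

theorem cfac_add_some (k : Idx B.m D0 D1) (σ : Option (Fin B.m) → ℕ) (j : Fin B.m) :
    B.cfac k (σ + Pi.single (some j) 1) =
      B.cfac k σ * (((k.2.1 j : ℕ) : ℂ) + ((k.2.2 : ℕ) : ℂ) * B.beta j) := by
  unfold cfac
  rw [← Finset.mul_prod_erase univ _ (mem_univ j), ← Finset.mul_prod_erase univ _ (mem_univ j)]
  have h1 : (σ + Pi.single (some j) 1 : Option (Fin B.m) → ℕ) (some j) = σ (some j) + 1 := by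
    simp
  have h2 : ∀ i ∈ univ.erase j, (σ + Pi.single (some j) 1 : Option (Fin B.m) → ℕ) (some i) =
      σ (some i) := by
    intro i hi
    have : i ≠ j := (mem_erase.1 hi).1
    simp [this]
  rw [h1, Finset.prod_congr rfl fun i hi => by rw [h2 i hi]]
  ring

theorem hasDerivAt_term (k : Idx B.m D0 D1) (σ : Option (Fin B.m) → ℕ) (z : ℂ) :
    HasDerivAt (B.term k σ) (∑ i, B.eta i * B.term k (σ + Pi.single i 1) z) z := by
  have h1 : HasDerivAt (fun z => (B.ufac k (σ none)).eval z)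
      ((derivative (B.ufac k (σ none))).eval z) z := Polynomial.hasDerivAt _ _
  have h2 : HasDerivAt (fun z => exp (B.freq k * z)) (exp (B.freq k * z) * (B.freq k * 1)) z :=
    ((hasDerivAt_id z).const_mul (B.freq k)).cexp
  have h3 := (h1.const_mul (B.cfac k σ)).mul h2
  have e : (∑ i, B.eta i * B.term k (σ + Pi.single i 1) z) =
      B.cfac k σ * (derivative (B.ufac k (σ none))).eval z * exp (B.freq k * z) +
      B.cfac k σ * (B.ufac k (σ none)).eval z * (exp (B.freq k * z) * (B.freq k * 1)) := by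
    rw [Fintype.sum_option]
    unfold term
    simp only [cfac_add_none, cfac_add_some]
    have e1 : (σ + Pi.single none 1 : Option (Fin B.m) → ℕ) none = σ none + 1 := by simp
    have e2 : ∀ j : Fin B.m, (σ + Pi.single (some j) 1 : Option (Fin B.m) → ℕ) none = σ none := by
      intro j; simp
    have e3 : B.ufac k (σ none + 1) = derivative (B.ufac k (σ none)) +
        C (((k.2.2 : ℕ) : ℂ) * B.beta0) * B.ufac k (σ none) := by
      rw [ufac, upoly_succ]; rfl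
    simp only [e1, e2, e3, eval_add, eval_mul, eval_C]
    have e4 : (∑ j, B.eta (some j) * (B.cfac k σ *
        (((k.2.1 j : ℕ) : ℂ) + ((k.2.2 : ℕ) : ℂ) * B.beta j) * (B.ufac k (σ none)).eval z *
          exp (B.freq k * z))) =
        (B.cfac k σ * (B.ufac k (σ none)).eval z * exp (B.freq k * z)) *
          (∑ j, ((k.2.1 j : ℕ) : ℂ) * B.lam j + ((k.2.2 : ℕ) : ℂ) * ∑ j, B.beta j * B.lam j) := by
      rw [Finset.mul_sum, ← Finset.sum_add_distrib, Finset.mul_sum]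
      refine Finset.sum_congr rfl fun j _ => ?_
      simp only [eta]
      ring
    rw [e4]
    have e5 : B.freq k = ∑ j, ((k.2.1 j : ℕ) : ℂ) * B.lam j + ((k.2.2 : ℕ) : ℂ) *
        (B.beta0 + ∑ j, B.beta j * B.lam j) := by
      rw [← B.rel]; rfl
    simp only [eta]
    rw [e5]
    ring
  rw [e]
  exact h3

theorem hasDerivAt_phi (p : Idx B.m D0 D1 → ℤ) (σ : Option (Fin B.m) → ℕ) (z : ℂ) :
    HasDerivAt (B.phi p σ) (∑ i, B.eta i * B.phi p (σ + Pi.single i 1) z) z := by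
  have h : HasDerivAt (fun z => ∑ k, (p k : ℂ) * B.term k σ z)
      (∑ k, (p k : ℂ) * ∑ i, B.eta i * B.term k (σ + Pi.single i 1) z) z :=
    HasDerivAt.fun_sum fun k _ => (B.hasDerivAt_term k σ z).const_mul _
  have e : (∑ i, B.eta i * B.phi p (σ + Pi.single i 1) z) =
      ∑ k, (p k : ℂ) * ∑ i, B.eta i * B.term k (σ + Pi.single i 1) z := by
    unfold phi
    simp only [Finset.mul_sum]
    rw [Finset.sum_comm]
    refine Finset.sum_congr rfl fun k _ => Finset.sum_congr rfl fun i _ => ?_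
    ring
  rw [e]
  exact h

theorem differentiable_phi (p : Idx B.m D0 D1 → ℤ) (σ : Option (Fin B.m) → ℕ) :
    Differentiable ℂ (B.phi p σ) := fun z => (B.hasDerivAt_phi p σ z).differentiableAt

theorem deriv_phi (p : Idx B.m D0 D1 → ℤ) (σ : Option (Fin B.m) → ℕ) :
    deriv (B.phi p σ) = fun z => ∑ i, B.eta i * B.phi p (σ + Pi.single i 1) z :=
  funext fun z => (B.hasDerivAt_phi p σ z).deriv

/-- If all `phi p σ` with `σ` in the box `[0,T)` vanish at `s`, then `phi p σ` vanishes to order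
`r` at `s` for `σ` in the box `[0, T - r)`. -/
theorem iteratedDeriv_phi_eq_zero (p : Idx B.m D0 D1 → ℤ) (T : ℕ) (s : ℂ)
    (h : ∀ σ : Option (Fin B.m) → ℕ, (∀ i, σ i < T) → B.phi p σ s = 0) (r : ℕ) :
    ∀ σ : Option (Fin B.m) → ℕ, (∀ i, σ i + r < T) → iteratedDeriv r (B.phi p σ) s = 0 := by
  induction r with
  | zero =>
    intro σ hσ
    rw [iteratedDeriv_zero]
    exact h σ fun i => by simpa using hσ i
  | succ r ih =>
    intro σ hσ
    rw [iteratedDeriv_succ', deriv_phi]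
    have hs : ∀ i ∈ (univ : Finset (Option (Fin B.m))), ContDiffAt ℂ r
        (fun z => B.eta i * B.phi p (σ + Pi.single i 1) z) s := by
      intro i _
      exact (contDiffAt_const.mul
        ((B.differentiable_phi p _).contDiff.contDiffAt))
    rw [iteratedDeriv_fun_sum hs]
    refine Finset.sum_eq_zero fun i _ => ?_
    rw [iteratedDeriv_const_mul_field]
    rw [ih, mul_zero]
    intro j
    have h1 := hσ j
    have h2 : (σ + Pi.single i 1 : Option (Fin B.m) → ℕ) j ≤ σ j + 1 := by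
      rw [Pi.add_apply, Pi.single_apply]
      split_ifs <;> omega
    omega

/-! ### Arithmetic -/

theorem exp_freq_nat (k : Idx B.m D0 D1) (s : ℕ) :
    exp (B.freq k * s) = (∏ j, exp (B.lam j) ^ ((k.2.1 j : ℕ) * s)) *
      exp B.mu ^ ((k.2.2 : ℕ) * s) := by
  unfold freq
  rw [add_mul, exp_add, Finset.sum_mul, exp_sum]
  congr 1
  · refine Finset.prod_congr rfl fun j _ => ?_
    rw [← exp_nat_mul]
    congr 1
    push_cast
    ring
  · rw [← exp_nat_mul]
    congr 1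
    push_cast
    ring

theorem pow_mul_mem {b : ℕ} {x : ℂ} {e T : ℕ} (h : (b : ℂ) ^ e * x ∈ GI) (he : e ≤ T) :
    (b : ℂ) ^ T * x ∈ GI := by
  obtain ⟨d, rfl⟩ := Nat.exists_eq_add_of_le he
  rw [add_comm e d, pow_add, mul_assoc]
  exact GI.mul_mem (pow_mem (natCast_mem_GI b) _) h

theorem upoly_coeff_mem {b : ℕ} {c : ℂ} (hc : (b : ℂ) * c ∈ GI) (k0 σ : ℕ) :
    ∀ i, (b : ℂ) ^ σ * (upoly c σ k0).coeff i ∈ GI := by
  induction σ with
  | zero =>
    intro i
    rw [upoly_zero, coeff_X_pow, pow_zero, one_mul]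
    split_ifs
    · exact GI.one_mem
    · exact GI.zero_mem
  | succ σ ih =>
    intro i
    rw [upoly_succ, coeff_add, coeff_derivative, coeff_C_mul]
    have e : (b : ℂ) ^ (σ + 1) * ((upoly c σ k0).coeff (i + 1) * ((i : ℂ) + 1) +
        c * (upoly c σ k0).coeff i) =
        (b : ℂ) * ((i + 1 : ℕ) : ℂ) * ((b : ℂ) ^ σ * (upoly c σ k0).coeff (i + 1)) +
        ((b : ℂ) * c) * ((b : ℂ) ^ σ * (upoly c σ k0).coeff i) := by
      push_cast
      ring
    rw [e]
    exact GI.add_mem (GI.mul_mem (GI.mul_mem (natCast_mem_GI _) (natCast_mem_GI _)) (ih _))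
      (GI.mul_mem hc (ih _))

theorem upoly_eval_mem {b : ℕ} {c : ℂ} (hc : (b : ℂ) * c ∈ GI) (k0 σ s : ℕ) :
    (b : ℂ) ^ σ * (upoly c σ k0).eval (s : ℂ) ∈ GI := by
  rw [eval_eq_sum_range, Finset.mul_sum]
  refine GI.sum_mem fun i _ => ?_
  rw [← mul_assoc]
  exact GI.mul_mem (upoly_coeff_mem hc k0 σ i) (pow_mem (natCast_mem_GI s) _)

/-- The common denominator of the values. -/
def den (T D1 S : ℕ) : ℕ := (B.b ^ T) ^ (B.m + 1) * (B.a ^ (D1 * S)) ^ (B.m + 1)

theorem den_pos (T D1 S : ℕ) : 0 < B.den T D1 S :=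
  Nat.mul_pos (pow_pos (pow_pos B.hb _) _) (pow_pos (pow_pos B.ha _) _)

theorem den_mul_term_mem (k : Idx B.m D0 D1) (σ : Option (Fin B.m) → ℕ) (T S s : ℕ)
    (hσ : ∀ i, σ i ≤ T) (hs : s ≤ S) : (B.den T D1 S : ℂ) * B.term k σ (s : ℂ) ∈ GI := by
  have h1 : (∏ j, ((B.b : ℂ) ^ T * (((k.2.1 j : ℕ) : ℂ) + ((k.2.2 : ℕ) : ℂ) * B.beta j) ^
      σ (some j))) ∈ GI := by
    refine GI.prod_mem fun j _ => ?_
    refine pow_mul_mem (e := σ (some j)) ?_ (hσ _)
    rw [← mul_pow]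
    refine pow_mem ?_ _
    have e : (B.b : ℂ) * (((k.2.1 j : ℕ) : ℂ) + ((k.2.2 : ℕ) : ℂ) * B.beta j) =
        (B.b : ℂ) * ((k.2.1 j : ℕ) : ℂ) + ((k.2.2 : ℕ) : ℂ) * ((B.b : ℂ) * B.beta j) := by ring
    rw [e]
    exact GI.add_mem (GI.mul_mem (natCast_mem_GI _) (natCast_mem_GI _))
      (GI.mul_mem (natCast_mem_GI _) (B.hbeta j))
  have h2 : (B.b : ℂ) ^ T * (B.ufac k (σ none)).eval (s : ℂ) ∈ GI := by
    refine pow_mul_mem (e := σ none) ?_ (hσ _)
    refine upoly_eval_mem ?_ _ _ _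
    have e : (B.b : ℂ) * (((k.2.2 : ℕ) : ℂ) * B.beta0) =
        ((k.2.2 : ℕ) : ℂ) * ((B.b : ℂ) * B.beta0) := by ring
    rw [e]
    exact GI.mul_mem (natCast_mem_GI _) B.hbeta0
  have hle : ∀ c : Fin D1, (c : ℕ) * s ≤ D1 * S := fun c =>
    Nat.mul_le_mul c.2.le hs
  have h3 : (∏ j, ((B.a : ℂ) ^ (D1 * S) * exp (B.lam j) ^ ((k.2.1 j : ℕ) * s))) ∈ GI := by
    refine GI.prod_mem fun j _ => ?_
    refine pow_mul_mem (e := (k.2.1 j : ℕ) * s) ?_ (hle _)
    rw [← mul_pow]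
    exact pow_mem (B.hlam j) _
  have h4 : (B.a : ℂ) ^ (D1 * S) * exp B.mu ^ ((k.2.2 : ℕ) * s) ∈ GI := by
    refine pow_mul_mem (e := (k.2.2 : ℕ) * s) ?_ (hle _)
    rw [← mul_pow]
    exact pow_mem B.hmu _
  have e : (B.den T D1 S : ℂ) * B.term k σ (s : ℂ) =
      ((∏ j, ((B.b : ℂ) ^ T * (((k.2.1 j : ℕ) : ℂ) + ((k.2.2 : ℕ) : ℂ) * B.beta j) ^
        σ (some j))) * ((B.b : ℂ) ^ T * (B.ufac k (σ none)).eval (s : ℂ))) *
      ((∏ j, ((B.a : ℂ) ^ (D1 * S) * exp (B.lam j) ^ ((k.2.1 j : ℕ) * s))) *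
        ((B.a : ℂ) ^ (D1 * S) * exp B.mu ^ ((k.2.2 : ℕ) * s))) := by
    unfold den term cfac
    rw [exp_freq_nat, Finset.prod_mul_distrib, Finset.prod_mul_distrib, Finset.prod_const,
      Finset.prod_const, Finset.card_univ, Fintype.card_fin]
    push_cast
    ring
  rw [e]
  exact GI.mul_mem (GI.mul_mem h1 h2) (GI.mul_mem h3 h4)

theorem den_mul_phi_mem (p : Idx B.m D0 D1 → ℤ) (σ : Option (Fin B.m) → ℕ) (T S s : ℕ)
    (hσ : ∀ i, σ i ≤ T) (hs : s ≤ S) : (B.den T D1 S : ℂ) * B.phi p σ (s : ℂ) ∈ GI := by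
  unfold phi
  rw [Finset.mul_sum]
  refine GI.sum_mem fun k _ => ?_
  have e : (B.den T D1 S : ℂ) * ((p k : ℂ) * B.term k σ (s : ℂ)) =
      (p k : ℂ) * ((B.den T D1 S : ℂ) * B.term k σ (s : ℂ)) := by ring
  rw [e]
  exact GI.mul_mem (intCast_mem GI _) (B.den_mul_term_mem k σ T S s hσ hs)

end Data

end Pool.Agent.BakerQi
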