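import Mathlib
import Pool.Agent.BakerQi.Family

set_option autoImplicit false

/-!
Analytic upper bounds for the family `Data.phi`.
-/

namespace Pool.Agent.BakerQi

open Complex Finset Polynomial

/-- Weighted length of a polynomial of degree `< D`. -/
noncomputable def pn (D : ℕ) (R : ℝ) (P : ℂ[X]) : ℝ := ∑ i ∈ range D, ‖P.coeff i‖ * R ^ i

theorem pn_nonneg (D : ℕ) {R : ℝ} (hR : 0 ≤ R) (P : ℂ[X]) : 0 ≤ pn D R P :=
  Finset.sum_nonneg fun _ _ => by positivity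

theorem pn_add_le (D : ℕ) {R : ℝ} (hR : 0 ≤ R) (P Q : ℂ[X]) :
    pn D R (P + Q) ≤ pn D R P + pn D R Q := by
  unfold pn
  rw [← Finset.sum_add_distrib]
  refine Finset.sum_le_sum fun i _ => ?_
  rw [coeff_add, ← add_mul]
  exact mul_le_mul_of_nonneg_right (norm_add_le _ _) (by positivity)

theorem pn_C_mul (D : ℕ) (R : ℝ) (c : ℂ) (P : ℂ[X]) : pn D R (C c * P) = ‖c‖ * pn D R P := by
  unfold pn
  rw [Finset.mul_sum]
  refine Finset.sum_congr rfl fun i _ => ?_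
  rw [coeff_C_mul, norm_mul, mul_assoc]

theorem pn_derivative_le {D : ℕ} {R : ℝ} (hR : 1 ≤ R) {P : ℂ[X]}
    (hP : ∀ i, D ≤ i → P.coeff i = 0) : pn D R (derivative P) ≤ D * pn D R P := by
  unfold pn
  have h1 : ∀ i ∈ range D, ‖(derivative P).coeff i‖ * R ^ i ≤
      D * (‖P.coeff (i + 1)‖ * R ^ (i + 1)) := by
    intro i hi
    rw [coeff_derivative, norm_mul]
    have h2 : ‖((i : ℂ) + 1)‖ = (i : ℝ) + 1 := by
      have : ((i : ℂ) + 1) = ((i + 1 : ℕ) : ℂ) := by push_cast; ring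
      rw [this, Complex.norm_natCast]; push_cast; ring
    rw [h2]
    have h3 : (i : ℝ) + 1 ≤ D := by exact_mod_cast (mem_range.1 hi)
    have h4 : R ^ i ≤ R ^ (i + 1) := pow_le_pow_right₀ hR (by omega)
    have h5 : (0 : ℝ) ≤ ‖P.coeff (i + 1)‖ := norm_nonneg _
    calc ‖P.coeff (i + 1)‖ * ((i : ℝ) + 1) * R ^ i ≤ ‖P.coeff (i + 1)‖ * D * R ^ (i + 1) := by
          gcongr
      _ = D * (‖P.coeff (i + 1)‖ * R ^ (i + 1)) := by ring
  refine (Finset.sum_le_sum h1).trans ?_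
  rw [← Finset.mul_sum]
  refine mul_le_mul_of_nonneg_left ?_ (by positivity)
  have h6 := Finset.sum_range_succ' (fun i => ‖P.coeff i‖ * R ^ i) D
  rw [Finset.sum_range_succ, hP D le_rfl, norm_zero, zero_mul, add_zero] at h6
  rw [h6]
  have : (0 : ℝ) ≤ ‖P.coeff 0‖ * R ^ 0 := by positivity
  linarith

theorem norm_eval_le {D : ℕ} {R : ℝ} {P : ℂ[X]} (hP : ∀ i, D ≤ i → P.coeff i = 0)
    {z : ℂ} (hz : ‖z‖ ≤ R) : ‖P.eval z‖ ≤ pn D R P := by
  have h1 : P.eval z = ∑ i ∈ range D, P.coeff i * z ^ i := by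
    rw [eval_eq_sum_range' (n := max D (P.natDegree + 1)) (by simp)]
    symm
    refine Finset.sum_subset (by intro i hi; simp at hi ⊢; omega) fun i _ hi => ?_
    rw [mem_range, not_lt] at hi
    rw [hP i hi, zero_mul]
  rw [h1]
  refine (norm_sum_le _ _).trans (Finset.sum_le_sum fun i _ => ?_)
  rw [norm_mul, norm_pow]
  have := norm_nonneg z
  gcongr

theorem upoly_coeff_eq_zero (c : ℂ) (σ k0 : ℕ) : ∀ i, k0 < i → (upoly c σ k0).coeff i = 0 := by
  induction σ with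
  | zero =>
    intro i hi
    rw [upoly_zero, coeff_X_pow, if_neg (by omega)]
  | succ σ ih =>
    intro i hi
    rw [upoly_succ, coeff_add, coeff_derivative, coeff_C_mul, ih (i + 1) (by omega), ih i hi]
    ring

theorem pn_upoly_le {D : ℕ} {R : ℝ} (hR : 1 ≤ R) (c : ℂ) (σ : ℕ) {k0 : ℕ} (hk : k0 < D) :
    pn D R (upoly c σ k0) ≤ (D + ‖c‖) ^ σ * R ^ D := by
  induction σ with
  | zero =>
    rw [upoly_zero, pow_zero, one_mul]
    unfold pn
    rw [Finset.sum_eq_single k0]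
    · rw [coeff_X_pow, if_pos rfl, norm_one, one_mul]
      exact pow_le_pow_right₀ hR hk.le
    · intro i _ hi
      rw [coeff_X_pow, if_neg hi, norm_zero, zero_mul]
    · intro h
      exact absurd (mem_range.2 hk) h
  | succ σ ih =>
    rw [upoly_succ]
    have hR0 : 0 ≤ R := by linarith
    have h1 := pn_add_le D hR0 (derivative (upoly c σ k0)) (C c * upoly c σ k0)
    have h2 := pn_derivative_le hR (P := upoly c σ k0) (D := D)
      fun i hi => upoly_coeff_eq_zero c σ k0 i (by omega)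
    rw [pn_C_mul] at h1
    have h3 := pn_nonneg D hR0 (upoly c σ k0)
    calc pn D R (derivative (upoly c σ k0) + C c * upoly c σ k0)
        ≤ D * pn D R (upoly c σ k0) + ‖c‖ * pn D R (upoly c σ k0) := by linarith
      _ = (D + ‖c‖) * pn D R (upoly c σ k0) := by ring
      _ ≤ (D + ‖c‖) * ((D + ‖c‖) ^ σ * R ^ D) := by gcongr
      _ = (D + ‖c‖) ^ (σ + 1) * R ^ D := by ring

namespace Data

variable (B : Data) {D0 D1 : ℕ}

/-- A bound for the coefficients. -/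
noncomputable def bd : ℝ := ‖B.beta0‖ + ∑ j, ‖B.beta j‖

/-- A bound for the logarithms. -/
noncomputable def Lam : ℝ := ∑ j, ‖B.lam j‖ + ‖B.mu‖

theorem bd_nonneg : 0 ≤ B.bd := by unfold bd; positivity

theorem Lam_nonneg : 0 ≤ B.Lam := by unfold Lam; positivity

theorem norm_beta_le (j : Fin B.m) : ‖B.beta j‖ ≤ B.bd := by
  unfold bd
  have := Finset.single_le_sum (f := fun j => ‖B.beta j‖) (fun _ _ => norm_nonneg _) (mem_univ j)
  have h2 := norm_nonneg B.beta0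
  linarith

theorem norm_beta0_le : ‖B.beta0‖ ≤ B.bd := by
  unfold bd
  have : 0 ≤ ∑ j, ‖B.beta j‖ := by positivity
  linarith

theorem norm_freq_le (k : Idx B.m D0 D1) : ‖B.freq k‖ ≤ D1 * B.Lam := by
  unfold freq Lam
  refine (norm_add_le _ _).trans ?_
  rw [mul_add, Finset.mul_sum]
  refine add_le_add ((norm_sum_le _ _).trans (Finset.sum_le_sum fun j _ => ?_)) ?_
  · rw [norm_mul, Complex.norm_natCast]
    have : ((k.2.1 j : ℕ) : ℝ) ≤ D1 := by exact_mod_cast (k.2.1 j).2.le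
    gcongr
  · rw [norm_mul, Complex.norm_natCast]
    have : ((k.2.2 : ℕ) : ℝ) ≤ D1 := by exact_mod_cast (k.2.2).2.le
    gcongr

theorem norm_term_le (k : Idx B.m D0 D1) (σ : Option (Fin B.m) → ℕ) {T : ℕ} (hσ : ∀ i, σ i ≤ T)
    {X R : ℝ} (hX : 1 ≤ X) (hX' : D1 * (1 + B.bd) + D0 ≤ X) (hR : 1 ≤ R) {z : ℂ}
    (hz : ‖z‖ ≤ R) :
    ‖B.term k σ z‖ ≤ X ^ ((B.m + 1) * T) * R ^ D0 * Real.exp (B.Lam * (D1 * R)) := by
  have hb := B.bd_nonneg
  have hX0 : 0 ≤ X := by linarith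
  have hD0 : (0 : ℝ) ≤ D0 := by positivity
  have hD1 : (0 : ℝ) ≤ D1 := by positivity
  have hk2 : ((k.2.2 : ℕ) : ℝ) ≤ D1 := by exact_mod_cast (k.2.2).2.le
  have h1 : ‖B.cfac k σ‖ ≤ X ^ (B.m * T) := by
    unfold cfac
    rw [norm_prod]
    calc (∏ j, ‖(((k.2.1 j : ℕ) : ℂ) + ((k.2.2 : ℕ) : ℂ) * B.beta j) ^ σ (some j)‖)
        ≤ ∏ _j : Fin B.m, X ^ T := by
          refine Finset.prod_le_prod (fun _ _ => norm_nonneg _) fun j _ => ?_
          rw [norm_pow]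
          have h2 : ‖((k.2.1 j : ℕ) : ℂ) + ((k.2.2 : ℕ) : ℂ) * B.beta j‖ ≤ X := by
            refine (norm_add_le _ _).trans ?_
            rw [norm_mul, Complex.norm_natCast, Complex.norm_natCast]
            have h3 : ((k.2.1 j : ℕ) : ℝ) ≤ D1 := by exact_mod_cast (k.2.1 j).2.le
            have h4 := B.norm_beta_le j
            have h5 : ((k.2.2 : ℕ) : ℝ) * ‖B.beta j‖ ≤ D1 * B.bd := by gcongr
            nlinarith
          calc ‖((k.2.1 j : ℕ) : ℂ) + ((k.2.2 : ℕ) : ℂ) * B.beta j‖ ^ σ (some j)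
              ≤ X ^ σ (some j) := by gcongr
            _ ≤ X ^ T := pow_le_pow_right₀ hX (hσ _)
      _ = X ^ (B.m * T) := by
          rw [Finset.prod_const, Finset.card_univ, Fintype.card_fin, ← pow_mul, mul_comm]
  have h2 : ‖(B.ufac k (σ none)).eval z‖ ≤ X ^ T * R ^ D0 := by
    unfold ufac
    refine (norm_eval_le (D := D0) (fun i hi => upoly_coeff_eq_zero _ _ _ i
      (lt_of_lt_of_le k.1.2 hi)) hz).trans ((pn_upoly_le hR _ _ k.1.2).trans ?_)
    have h3 : (D0 : ℝ) + ‖((k.2.2 : ℕ) : ℂ) * B.beta0‖ ≤ X := by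
      rw [norm_mul, Complex.norm_natCast]
      have h4 := B.norm_beta0_le
      have h5 : ((k.2.2 : ℕ) : ℝ) * ‖B.beta0‖ ≤ D1 * B.bd := by gcongr
      nlinarith
    have h4 : ((D0 : ℝ) + ‖((k.2.2 : ℕ) : ℂ) * B.beta0‖) ^ σ none ≤ X ^ T :=
      (pow_le_pow_left₀ (by positivity) h3 _).trans (pow_le_pow_right₀ hX (hσ _))
    gcongr
  have h3 : ‖exp (B.freq k * z)‖ ≤ Real.exp (B.Lam * (D1 * R)) := by
    rw [Complex.norm_exp]
    apply Real.exp_le_exp.2
    refine (Complex.re_le_norm _).trans ?_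
    rw [norm_mul]
    have h4 := B.norm_freq_le k
    have h5 := B.Lam_nonneg
    calc ‖B.freq k‖ * ‖z‖ ≤ (D1 * B.Lam) * R := by gcongr
      _ = B.Lam * (D1 * R) := by ring
  unfold term
  rw [norm_mul, norm_mul]
  calc ‖B.cfac k σ‖ * ‖(B.ufac k (σ none)).eval z‖ * ‖exp (B.freq k * z)‖
      ≤ X ^ (B.m * T) * (X ^ T * R ^ D0) * Real.exp (B.Lam * (D1 * R)) := by gcongr
    _ = X ^ ((B.m + 1) * T) * R ^ D0 * Real.exp (B.Lam * (D1 * R)) := by
      rw [add_mul, one_mul, pow_add]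
      ring

theorem norm_phi_le (p : Idx B.m D0 D1 → ℤ) {P : ℝ} (hp : ∀ k, |(p k : ℝ)| ≤ P)
    (σ : Option (Fin B.m) → ℕ) {T : ℕ} (hσ : ∀ i, σ i ≤ T)
    {X R : ℝ} (hX : 1 ≤ X) (hX' : D1 * (1 + B.bd) + D0 ≤ X) (hR : 1 ≤ R) {z : ℂ}
    (hz : ‖z‖ ≤ R) :
    ‖B.phi p σ z‖ ≤ Fintype.card (Idx B.m D0 D1) *
      (P * (X ^ ((B.m + 1) * T) * R ^ D0 * Real.exp (B.Lam * (D1 * R)))) := by
  unfold phi
  refine (norm_sum_le _ _).trans ?_
  rw [← Finset.card_univ, ← nsmul_eq_mul]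
  refine Finset.sum_le_card_nsmul _ _ _ fun k _ => ?_
  rw [norm_mul]
  have h1 : ‖(p k : ℂ)‖ ≤ P := by
    rw [Complex.norm_intCast]
    exact_mod_cast hp k
  have h2 := B.norm_term_le k σ hσ hX hX' hR hz
  have h3 : 0 ≤ P := (norm_nonneg _).trans h1
  gcongr

end Data

end Pool.Agent.BakerQi
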