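import Mathlib
import Pool.Agent.BakerQi.Bounds

set_option autoImplicit false

/-!
Siegel's lemma applied to the family `Data.phi`, and one extrapolation step.
-/

namespace Pool.Agent.BakerQi

open Complex Finset Polynomial

attribute [local instance] Matrix.seminormedAddCommGroup

/-- Siegel's lemma in the form we need: Gaussian integer matrices, twice as many unknowns as
real equations. -/
theorem siegel {α β : Type*} [Fintype α] [Fintype β] [Nonempty α]
    (g : α → β → GaussianInt) (hcard : 2 * (Fintype.card α * 2) ≤ Fintype.card β)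
    {A : ℝ} (hA : 1 ≤ A) (hg : ∀ i j, ‖((g i j : GaussianInt) : ℂ)‖ ≤ A) :
    ∃ p : β → ℤ, p ≠ 0 ∧ (∀ i, ∑ j, (p j : ℂ) * ((g i j : GaussianInt) : ℂ) = 0) ∧
      ∀ j, |(p j : ℝ)| ≤ Fintype.card β * A := by
  classical
  let M : Matrix (α × Bool) β ℤ := fun i j => if i.2 then (g i.1 j).re else (g i.1 j).im
  have hcα : 0 < Fintype.card α := Fintype.card_pos
  have hc : Fintype.card (α × Bool) = Fintype.card α * 2 := by simp
  have h1 : Fintype.card (α × Bool) < Fintype.card β := by rw [hc]; omega
  have h2 : 0 < Fintype.card (α × Bool) := by rw [hc]; omega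
  obtain ⟨t, ht0, htM, htn⟩ := Int.Matrix.exists_ne_zero_int_vec_norm_le M h1 h2
  have hMn : ‖M‖ ≤ A := by
    rw [Matrix.norm_le_iff (by linarith)]
    rintro ⟨i, c⟩ j
    have h3 := hg i j
    have hre : ((g i j).re : ℝ) = ((g i j : GaussianInt) : ℂ).re := GaussianInt.intCast_re _
    have him : ((g i j).im : ℝ) = ((g i j : GaussianInt) : ℂ).im := GaussianInt.intCast_im _
    cases c
    · simp only [M, Bool.false_eq_true, if_false]
      rw [Int.norm_eq_abs, him]
      exact (Complex.abs_im_le_norm _).trans h3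
    · simp only [M, if_true]
      rw [Int.norm_eq_abs, hre]
      exact (Complex.abs_re_le_norm _).trans h3
  have hβ : (1 : ℝ) ≤ Fintype.card β := by
    have : 1 ≤ Fintype.card β := by omega
    exact_mod_cast this
  have hbase : (1 : ℝ) ≤ Fintype.card β * max 1 ‖M‖ := by
    have : (1 : ℝ) ≤ max 1 ‖M‖ := le_max_left _ _
    nlinarith
  have hexp : ((Fintype.card (α × Bool) : ℕ) : ℝ) /
      ((Fintype.card β : ℝ) - (Fintype.card (α × Bool) : ℕ)) ≤ 1 := by
    have h4 : (2 : ℝ) * (Fintype.card (α × Bool) : ℕ) ≤ Fintype.card β := by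
      rw [hc]; exact_mod_cast hcard
    have h5 : (0 : ℝ) < (Fintype.card (α × Bool) : ℕ) := by exact_mod_cast h2
    rw [div_le_one (by linarith)]
    linarith
  have hn : ‖t‖ ≤ Fintype.card β * A := by
    refine htn.trans ?_
    calc ((Fintype.card β : ℝ) * max 1 ‖M‖) ^ (((Fintype.card (α × Bool) : ℕ) : ℝ) /
          ((Fintype.card β : ℝ) - (Fintype.card (α × Bool) : ℕ)))
        ≤ ((Fintype.card β : ℝ) * max 1 ‖M‖) ^ (1 : ℝ) :=
          Real.rpow_le_rpow_of_exponent_le hbase hexp
      _ = (Fintype.card β : ℝ) * max 1 ‖M‖ := Real.rpow_one _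
      _ ≤ Fintype.card β * A := by
          gcongr
          exact max_le hA hMn
  refine ⟨t, ht0, fun i => ?_, fun j => ?_⟩
  · have h5 : ∀ c, ∑ j, M (i, c) j * t j = 0 := fun c => congrFun htM (i, c)
    have h6 := h5 true
    have h7 := h5 false
    simp only [M, if_true] at h6
    simp only [M, Bool.false_eq_true, if_false] at h7
    have h8 : ∑ j, (t j : ℂ) * ((g i j : GaussianInt) : ℂ) =
        ((∑ j, (g i j).re * t j : ℤ) : ℂ) + ((∑ j, (g i j).im * t j : ℤ) : ℂ) * I := by
      push_cast
      rw [Finset.sum_mul, ← Finset.sum_add_distrib]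
      refine Finset.sum_congr rfl fun j _ => ?_
      rw [GaussianInt.toComplex_def]
      ring
    rw [h8, h6, h7]
    simp
  · have := norm_le_pi_norm t j
    rw [Int.norm_eq_abs] at this
    exact this.trans hn

end Pool.Agent.BakerQi
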