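import Mathlib
import Pool.Agent.BakerQi.Steps

set_option autoImplicit false

/-!
Choice of parameters: there is no `Data`, i.e. the core of Baker's theorem over `ℚ(i)`.
-/

namespace Pool.Agent.BakerQi

open Complex Finset Polynomial Filter

/-- Existence of a large parameter. -/
theorem exists_param (c M : ℕ) (K bd : ℝ) (hK : 0 < K) :
    ∃ N : ℕ, 3 ≤ N ∧ M ≤ N ∧ 2 + bd ≤ N ∧ (N : ℝ) ^ c * K < 2 ^ N := by
  have h1 : Tendsto (fun n : ℕ => (n : ℝ) ^ c / (2 : ℝ) ^ n) atTop (nhds 0) :=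
    tendsto_pow_const_div_const_pow_of_one_lt c (by norm_num)
  have h2 : ∀ᶠ n : ℕ in atTop, (n : ℝ) ^ c / (2 : ℝ) ^ n < 1 / K :=
    (tendsto_order.1 h1).2 _ (by positivity)
  have h3 : ∀ᶠ n : ℕ in atTop, (2 + bd : ℝ) ≤ n :=
    tendsto_natCast_atTop_atTop.eventually_ge_atTop _
  obtain ⟨N, hN⟩ := (h2.and (h3.and ((eventually_ge_atTop 3).and
    (eventually_ge_atTop M)))).exists
  refine ⟨N, hN.2.2.1, hN.2.2.2, hN.2.1, ?_⟩
  have h4 := hN.1
  rw [div_lt_div_iff₀ (by positivity) hK, one_mul] at h4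
  exact h4

namespace Data

/-- Baker's theorem over `ℚ(i)`, core statement. -/
theorem elim (B : Data) : False := by
  classical
  set n := B.m + 1 with hn
  set J := 2 * n ^ 2 + 4 * n + 3 with hJ
  set e1 := n * (J + 1) with he1
  set e2 := (2 * n + 3) * (n * (J + 1)) with he2
  set c := 2 * e1 + 2 * (J + 1) + 2 * e2 + 1 + (J + 2) with hc
  set a' : ℝ := (B.a : ℝ) ^ n with ha'
  set K : ℝ := (a' * Real.exp B.Lam) * (a' * Real.exp (3 * B.Lam)) with hK
  have ha1 : (1 : ℝ) ≤ B.a := by exact_mod_cast B.ha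
  have ha'1 : 1 ≤ a' := one_le_pow₀ ha1
  have hL0 := B.Lam_nonneg
  have hbd := B.bd_nonneg
  have hE1 : 1 ≤ Real.exp B.Lam := Real.one_le_exp hL0
  have hE3 : 1 ≤ Real.exp (3 * B.Lam) := Real.one_le_exp (by linarith)
  have hK1 : 1 ≤ a' * Real.exp B.Lam := one_le_mul_of_one_le_of_one_le ha'1 hE1
  have hK3 : 1 ≤ a' * Real.exp (3 * B.Lam) := one_le_mul_of_one_le_of_one_le ha'1 hE3
  obtain ⟨N, hN3, hNM, hNb, hNK⟩ := exists_param c (B.b + 4 * (J + 1) ^ n) K B.bd (by positivity)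
  have hN1 : (1 : ℝ) ≤ N := by exact_mod_cast (by omega : 1 ≤ N)
  have hN0 : 0 < N := by omega
  set W := N ^ (2 * n + 2) with hW
  set D1 := N ^ (2 * n) with hD1
  have hW0 : 0 < W := pow_pos hN0 _
  have hW1 : 1 ≤ W := hW0
  have hWr : (1 : ℝ) ≤ W := by exact_mod_cast hW1
  have hbN : (B.b : ℝ) ≤ N := by exact_mod_cast (by omega : B.b ≤ N)
  -- the bound `X`
  set X : ℝ := (N : ℝ) ^ (2 * n + 3) with hX
  have hX1 : 1 ≤ X := one_le_pow₀ hN1
  have hX' : (D1 : ℝ) * (1 + B.bd) + W ≤ X := by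
    have h1 : (D1 : ℝ) ≤ W := by
      rw [hD1, hW]; exact_mod_cast Nat.pow_le_pow_right hN0 (by omega)
    have h2 : (W : ℝ) = (N : ℝ) ^ (2 * n + 2) := by rw [hW]; push_cast; rfl
    calc (D1 : ℝ) * (1 + B.bd) + W ≤ W * (1 + B.bd) + W := by gcongr
      _ = (2 + B.bd) * W := by ring
      _ ≤ N * W := by gcongr
      _ = X := by rw [h2, hX]; ring
  -- `N ^ e W`-bounds
  have hXp : ∀ T : ℕ, T ≤ (J + 1) * W → X ^ (n * T) ≤ (N : ℝ) ^ (e2 * W) := by
    intro T hT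
    rw [hX, ← pow_mul]
    refine pow_le_pow_right₀ hN1 ?_
    calc (2 * n + 3) * (n * T) ≤ (2 * n + 3) * (n * ((J + 1) * W)) := by gcongr
      _ = e2 * W := by rw [he2]; ring
  have hbp : ∀ T : ℕ, T ≤ (J + 1) * W → (((B.b : ℝ)) ^ T) ^ n ≤ (N : ℝ) ^ (e1 * W) := by
    intro T hT
    rw [← pow_mul]
    calc (B.b : ℝ) ^ (T * n) ≤ (N : ℝ) ^ (T * n) := by gcongr
      _ ≤ (N : ℝ) ^ (e1 * W) := by
        refine pow_le_pow_right₀ hN1 ?_
        calc T * n ≤ ((J + 1) * W) * n := by gcongr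
          _ = e1 * W := by rw [he1]; ring
  have hden : ∀ T S : ℕ, T ≤ (J + 1) * W → (B.den T D1 S : ℝ) ≤
      (N : ℝ) ^ (e1 * W) * a' ^ (D1 * S) := by
    intro T S hT
    unfold den
    push_cast
    have h1 : ((B.a : ℝ) ^ (D1 * S)) ^ n = a' ^ (D1 * S) := by
      rw [ha', ← pow_mul, ← pow_mul, mul_comm]
    have h2 := hbp T hT
    rw [← hn, h1]
    gcongr
  have hcardIdx : (Fintype.card (Idx B.m W D1) : ℝ) ≤ (N : ℝ) ^ ((J + 1) * W) := by
    rw [B.card_Idx]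
    have h1 : W * (D1 ^ B.m * D1) = N ^ (2 * n + 2 + 2 * n * n) := by
      rw [hW, hD1, ← pow_succ, ← pow_mul, ← pow_add, hn]
    rw [h1]
    push_cast
    refine pow_le_pow_right₀ hN1 ?_
    calc 2 * n + 2 + 2 * n * n ≤ (J + 1) * 1 := by rw [hJ]; nlinarith
      _ ≤ (J + 1) * W := by gcongr
  -- the auxiliary function
  have hS0 : D1 * N ≤ W := by
    rw [hD1, hW, ← pow_succ]
    exact Nat.pow_le_pow_right hN0 (by omega)
  set A : ℝ := (N : ℝ) ^ ((e1 + e2 + 1) * W) * (a' * Real.exp B.Lam) ^ W with hA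
  have hA1 : 1 ≤ A := one_le_mul_of_one_le_of_one_le (one_le_pow₀ hN1) (one_le_pow₀ hK1)
  have hcard : 2 * (((J + 1) * W) ^ (B.m + 1) * N * 2) ≤ W * (D1 ^ B.m * D1) := by
    have h1 : W * (D1 ^ B.m * D1) = N ^ (2 * n + 1 + 2 * n * n) * N := by
      rw [hW, hD1, ← pow_succ, ← pow_mul, ← pow_add, hn, ← pow_succ]
      congr 1; ring
    have h2 : ((J + 1) * W) ^ (B.m + 1) * N = (J + 1) ^ n * N ^ (2 * n + 1 + 2 * n * n) := by
      rw [mul_pow, ← hn, hW, ← pow_mul, mul_assoc, ← pow_succ]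
      congr 2; ring
    rw [h1, h2]
    have h3 : 4 * (J + 1) ^ n ≤ N := by omega
    calc 2 * ((J + 1) ^ n * N ^ (2 * n + 1 + 2 * n * n) * 2) =
        N ^ (2 * n + 1 + 2 * n * n) * (4 * (J + 1) ^ n) := by ring
      _ ≤ N ^ (2 * n + 1 + 2 * n * n) * N := by gcongr
  obtain ⟨p, hp0, hpz, hpb⟩ := B.exists_aux W D1 ((J + 1) * W) N (by positivity) hN0 hcard hA1 (by
    intro k σ s hσ hs
    have hsr : ‖((s : ℕ) : ℂ)‖ ≤ (N : ℝ) := by
      rw [Complex.norm_natCast]; exact_mod_cast hs.le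
    have h1 := B.norm_term_le k σ (fun i => (hσ i).le) hX1 hX' hN1 hsr
    have h2 := hden ((J + 1) * W) N le_rfl
    have h3 : X ^ ((B.m + 1) * ((J + 1) * W)) ≤ (N : ℝ) ^ (e2 * W) := hXp _ le_rfl
    have h4 : a' ^ (D1 * N) ≤ a' ^ W := pow_le_pow_right₀ ha'1 hS0
    have h5 : Real.exp (B.Lam * (D1 * N)) ≤ Real.exp B.Lam ^ W := by
      rw [← Real.exp_nat_mul]
      apply Real.exp_le_exp.2
      have : ((D1 : ℝ) * N) ≤ W := by exact_mod_cast hS0
      nlinarith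
    calc (B.den ((J + 1) * W) D1 N : ℝ) * ‖B.term k σ (s : ℂ)‖
        ≤ ((N : ℝ) ^ (e1 * W) * a' ^ W) *
          ((N : ℝ) ^ (e2 * W) * (N : ℝ) ^ W * Real.exp B.Lam ^ W) := by
          refine mul_le_mul (h2.trans (by gcongr)) (h1.trans ?_) (norm_nonneg _) (by positivity)
          gcongr
      _ = A := by
          rw [hA, mul_pow, add_mul, add_mul, one_mul, pow_add, pow_add]
          ring)
  -- the extrapolation
  set P : ℝ := Fintype.card (Idx B.m W D1) * A with hP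
  have hPb : P ≤ (N : ℝ) ^ ((J + 1) * W) * A := by rw [hP]; gcongr
  have main : ∀ i : ℕ, i ≤ J → ∀ σ : Option (Fin B.m) → ℕ, (∀ j, σ j < (J + 1 - i) * W) →
      ∀ s : ℕ, s < N ^ (i + 1) → B.phi p σ (s : ℂ) = 0 := by
    intro i
    induction i with
    | zero =>
      intro _ σ hσ s hs
      exact hpz σ (by simpa using hσ) s (by simpa using hs)
    | succ i ih =>
      intro hi
      have ih' := ih (by omega)
      have hTW : (J + 1 - i) * W = (J + 1 - (i + 1)) * W + W := by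
        obtain ⟨t, ht⟩ : ∃ t, J + 1 - i = t + 1 := ⟨J - i, by omega⟩
        have : J + 1 - (i + 1) = t := by omega
        rw [ht, this]; ring
      rw [hTW] at ih'
      refine B.extrap p hpb ((J + 1 - (i + 1)) * W) W (N ^ (i + 1)) (N ^ (i + 1 + 1))
        (Nat.pow_le_pow_right hN0 (by omega)) (pow_pos hN0 _) ih' hX1 hX' ?_
      have hTle : (J + 1 - (i + 1)) * W ≤ (J + 1) * W := Nat.mul_le_mul_right _ (by omega)
      have hDS : D1 * N ^ (i + 1 + 1) = W * N ^ i := by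
        rw [hD1, hW, ← pow_add, ← pow_add]
        congr 1; ring
      have h1 := hden ((J + 1 - (i + 1)) * W) (N ^ (i + 1 + 1)) hTle
      rw [hDS] at h1
      have h2 : X ^ ((B.m + 1) * ((J + 1 - (i + 1)) * W)) ≤ (N : ℝ) ^ (e2 * W) := hXp _ hTle
      have h3 : ((3 : ℝ) * ((N ^ (i + 1 + 1) : ℕ) : ℝ)) ^ W ≤ (N : ℝ) ^ ((J + 2) * W) := by
        rw [pow_mul]
        refine pow_le_pow_left₀ (by positivity) ?_ _
        have h3' : (3 : ℝ) ≤ N := by exact_mod_cast hN3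
        push_cast
        calc (3 : ℝ) * (N : ℝ) ^ (i + 1 + 1) ≤ N * (N : ℝ) ^ (i + 1 + 1) := by gcongr
          _ = (N : ℝ) ^ (i + 3) := by ring
          _ ≤ (N : ℝ) ^ (J + 2) := pow_le_pow_right₀ hN1 (by omega)
      have h4 : Real.exp (B.Lam * ((D1 : ℝ) * (3 * ((N ^ (i + 1 + 1) : ℕ) : ℝ)))) =
          Real.exp (3 * B.Lam) ^ (W * N ^ i) := by
        rw [← Real.exp_nat_mul]
        congr 1
        have h5 : ((D1 : ℝ) * ((N ^ (i + 1 + 1) : ℕ) : ℝ)) = ((W * N ^ i : ℕ) : ℝ) := by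
          exact_mod_cast hDS
        rw [← h5]; ring
      rw [h4]
      have hNi : 1 ≤ N ^ i := Nat.one_le_pow _ _ hN0
      have hWNi : W ≤ W * N ^ i := Nat.le_mul_of_pos_right _ hNi
      calc (B.den ((J + 1 - (i + 1)) * W) D1 (N ^ (i + 1 + 1)) : ℝ) *
          (Fintype.card (Idx B.m W D1) * (P * (X ^ ((B.m + 1) * ((J + 1 - (i + 1)) * W)) *
            (3 * ((N ^ (i + 1 + 1) : ℕ) : ℝ)) ^ W * Real.exp (3 * B.Lam) ^ (W * N ^ i))))
          ≤ ((N : ℝ) ^ (e1 * W) * a' ^ (W * N ^ i)) * ((N : ℝ) ^ ((J + 1) * W) *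
            (((N : ℝ) ^ ((J + 1) * W) * A) * ((N : ℝ) ^ (e2 * W) * (N : ℝ) ^ ((J + 2) * W) *
              Real.exp (3 * B.Lam) ^ (W * N ^ i)))) := by
            have hP0 : 0 ≤ P := by rw [hP]; positivity
            gcongr
        _ = (N : ℝ) ^ (c * W) * ((a' * Real.exp B.Lam) ^ W *
            (a' * Real.exp (3 * B.Lam)) ^ (W * N ^ i)) := by
            rw [hA, mul_pow (a') (Real.exp (3 * B.Lam))]
            have h6 : (N : ℝ) ^ (c * W) = (N : ℝ) ^ (e1 * W) * (N : ℝ) ^ ((J + 1) * W) *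
                (N : ℝ) ^ ((J + 1) * W) * (N : ℝ) ^ ((e1 + e2 + 1) * W) * (N : ℝ) ^ (e2 * W) *
                (N : ℝ) ^ ((J + 2) * W) := by
              rw [← pow_add, ← pow_add, ← pow_add, ← pow_add, ← pow_add]
              congr 1
              rw [hc]; ring
            rw [h6]
            ring
        _ ≤ (N : ℝ) ^ (c * (W * N ^ i)) * ((a' * Real.exp B.Lam) ^ (W * N ^ i) *
            (a' * Real.exp (3 * B.Lam)) ^ (W * N ^ i)) := by
            have g1 : (N : ℝ) ^ (c * W) ≤ (N : ℝ) ^ (c * (W * N ^ i)) :=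
              pow_le_pow_right₀ hN1 (Nat.mul_le_mul_left _ hWNi)
            have g2 : (a' * Real.exp B.Lam) ^ W ≤ (a' * Real.exp B.Lam) ^ (W * N ^ i) :=
              pow_le_pow_right₀ hK1 hWNi
            gcongr
        _ = ((N : ℝ) ^ c * K) ^ (W * N ^ i) := by
            rw [hK, mul_pow ((N : ℝ) ^ c), mul_pow (a' * Real.exp B.Lam), ← pow_mul]
        _ < ((2 : ℝ) ^ N) ^ (W * N ^ i) := by
            refine pow_lt_pow_left₀ hNK (by positivity) ?_
            positivity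
        _ = 2 ^ (W * N ^ (i + 1)) := by
            rw [← pow_mul]
            congr 1
            ring
  -- conclusion
  have hfin := B.final p W (N ^ (J + 1)) (fun σ hσ s hs => main J le_rfl σ (by
    intro j
    have := hσ j
    have h1 : J + 1 - J = 1 := by omega
    rw [h1, one_mul]
    exact this) s hs)
    (by rw [hD1, hW]; exact Nat.pow_le_pow_right hN0 (by omega)) hW0 (by
      have h1 : W * (D1 ^ B.m * D1) * W = N ^ (2 * n + 2 + 2 * n * n + (2 * n + 2)) := by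
        rw [hW, hD1, ← pow_succ, ← pow_mul, ← pow_add, ← pow_add, hn]
      rw [h1]
      refine Nat.pow_le_pow_right hN0 ?_
      rw [hJ]; nlinarith)
  exact hp0 hfin

end Data

end Pool.Agent.BakerQi
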