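import Mathlib
import Pool.Agent.BakerQi.Core

set_option autoImplicit false

/-!
Baker's theorem (inhomogeneous form) over `ℚ(i)`: a linear form
`β₀ + β₁ λ₁ + ⋯ + βₙ λₙ` with `β_j ∈ ℚ(i)`, `β₀ ≠ 0`, `exp λ_j ∈ ℚ(i)` does not vanish.
-/

namespace Pool.Agent.BakerQi

open Complex Finset

/-- The field `ℚ(i)` inside `ℂ`. -/
def GQ : Subfield ℂ where
  carrier := {x | ∃ r s : ℚ, x = (r : ℂ) + (s : ℂ) * I}
  mul_mem' := by
    rintro _ _ ⟨r, s, rfl⟩ ⟨r', s', rfl⟩
    refine ⟨r * r' - s * s', r * s' + s * r', ?_⟩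
    push_cast
    linear_combination ((s : ℂ) * s') * I_sq
  one_mem' := ⟨1, 0, by simp⟩
  add_mem' := by
    rintro _ _ ⟨r, s, rfl⟩ ⟨r', s', rfl⟩
    exact ⟨r + r', s + s', by push_cast; ring⟩
  zero_mem' := ⟨0, 0, by simp⟩
  neg_mem' := by
    rintro _ ⟨r, s, rfl⟩
    exact ⟨-r, -s, by push_cast; ring⟩
  inv_mem' := by
    rintro _ ⟨r, s, rfl⟩
    by_cases h : (r : ℂ) + (s : ℂ) * I = 0
    · rw [h, inv_zero]; exact ⟨0, 0, by simp⟩
    · refine ⟨r / (r ^ 2 + s ^ 2), -s / (r ^ 2 + s ^ 2), ?_⟩
      have h2 : ((r : ℂ) + (s : ℂ) * I) * ((r : ℂ) - (s : ℂ) * I) = (r : ℂ) ^ 2 + (s : ℂ) ^ 2 := by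
        linear_combination (-(s : ℂ) ^ 2) * I_sq
      have h3 : ((r : ℂ) ^ 2 + (s : ℂ) ^ 2) ≠ 0 := by
        intro h4
        have h5 : ((r ^ 2 + s ^ 2 : ℚ) : ℂ) = 0 := by push_cast; exact h4
        have h6 : (r ^ 2 + s ^ 2 : ℚ) = 0 := by exact_mod_cast h5
        have hr : r = 0 := by nlinarith [sq_nonneg r, sq_nonneg s]
        have hs : s = 0 := by nlinarith [sq_nonneg r, sq_nonneg s]
        apply h
        rw [hr, hs]; simp
      push_cast
      refine inv_eq_of_mul_eq_one_right ?_
      field_simp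
      linear_combination h2

theorem ratCast_mem_GQ (r : ℚ) : (r : ℂ) ∈ GQ := ⟨r, 0, by simp⟩

theorem I_mem_GQ : I ∈ GQ := ⟨0, 1, by simp⟩

theorem I_mem_GI : I ∈ GI := ⟨⟨0, 1⟩, by simp [GaussianInt.toComplex_def]⟩

theorem exists_den {x : ℂ} (hx : x ∈ GQ) : ∃ b : ℕ, 0 < b ∧ (b : ℂ) * x ∈ GI := by
  obtain ⟨r, s, rfl⟩ := hx
  refine ⟨r.den * s.den, Nat.mul_pos r.den_pos s.den_pos, ?_⟩
  have hr : (r.den : ℂ) * (r : ℂ) = (r.num : ℂ) := by
    have := Rat.den_mul_eq_num r
    exact_mod_cast this
  have hs : (s.den : ℂ) * (s : ℂ) = (s.num : ℂ) := by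
    have := Rat.den_mul_eq_num s
    exact_mod_cast this
  have e : ((r.den * s.den : ℕ) : ℂ) * ((r : ℂ) + (s : ℂ) * I) =
      (s.den : ℂ) * (r.num : ℂ) + (r.den : ℂ) * (s.num : ℂ) * I := by
    rw [← hr, ← hs]; push_cast; ring
  rw [e]
  exact GI.add_mem (GI.mul_mem (natCast_mem_GI _) (intCast_mem GI _))
    (GI.mul_mem (GI.mul_mem (natCast_mem_GI _) (intCast_mem GI _)) I_mem_GI)

theorem exists_common_den {ι : Type*} [Fintype ι] (x : ι → ℂ) (hx : ∀ i, x i ∈ GQ) :
    ∃ b : ℕ, 0 < b ∧ ∀ i, (b : ℂ) * x i ∈ GI := by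
  classical
  choose d hd hd' using fun i => exists_den (hx i)
  refine ⟨∏ i, d i, Finset.prod_pos fun i _ => hd i, fun i => ?_⟩
  rw [← Finset.mul_prod_erase univ d (mem_univ i)]
  push_cast
  rw [mul_comm (d i : ℂ), mul_assoc]
  refine GI.mul_mem (GI.prod_mem fun j _ => natCast_mem_GI _) (hd' i)

/-- A vanishing inhomogeneous linear form in `n` logarithms over `ℚ(i)`. -/
structure Rel (n : ℕ) where
  lam : Fin n → ℂ
  beta : Fin n → ℂ
  beta0 : ℂ
  hlam : ∀ j, exp (lam j) ∈ GQ
  hbeta : ∀ j, beta j ∈ GQ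
  hbeta0 : beta0 ∈ GQ
  ne : beta0 ≠ 0
  rel : beta0 + ∑ j, beta j * lam j = 0

/-- Dropping a zero coefficient. -/
theorem Rel.drop {m : ℕ} (R : Rel (m + 1)) (k : Fin (m + 1)) (hk : R.beta k = 0) :
    Nonempty (Rel m) := by
  refine ⟨⟨fun j => R.lam (k.succAbove j), fun j => R.beta (k.succAbove j), R.beta0,
    fun j => R.hlam _, fun j => R.hbeta _, R.hbeta0, R.ne, ?_⟩⟩
  have := R.rel
  rw [Fin.sum_univ_succAbove _ k, hk, zero_mul, zero_add] at this
  exact this

/-- Using an integer relation between the logarithms. -/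
theorem Rel.dep {m : ℕ} (R : Rel (m + 1)) (c : Fin (m + 1) → ℤ) (k : Fin (m + 1)) (hk : c k ≠ 0)
    (hc : ∑ j, (c j : ℂ) * R.lam j = 0) : Nonempty (Rel m) := by
  have hk' : (c k : ℂ) ≠ 0 := by exact_mod_cast hk
  have hcm : ∀ j, (c j : ℂ) ∈ GQ := fun j => by
    have := ratCast_mem_GQ (c j : ℚ)
    simpa using this
  refine ⟨⟨fun j => R.lam (k.succAbove j),
    fun j => R.beta (k.succAbove j) - R.beta k * (c (k.succAbove j) : ℂ) / (c k : ℂ), R.beta0,
    fun j => R.hlam _, fun j => GQ.sub_mem (R.hbeta _)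
      (GQ.div_mem (GQ.mul_mem (R.hbeta _) (hcm _)) (hcm _)), R.hbeta0, R.ne, ?_⟩⟩
  have h1 := R.rel
  rw [Fin.sum_univ_succAbove _ k] at h1 hc
  have h2 : ∑ j : Fin m, (R.beta (k.succAbove j) - R.beta k * (c (k.succAbove j) : ℂ) / (c k : ℂ)) *
      R.lam (k.succAbove j) = ∑ j : Fin m, R.beta (k.succAbove j) * R.lam (k.succAbove j) -
      R.beta k / (c k : ℂ) * ∑ j : Fin m, (c (k.succAbove j) : ℂ) * R.lam (k.succAbove j) := by
    rw [Finset.mul_sum, ← Finset.sum_sub_distrib]
    refine Finset.sum_congr rfl fun j _ => ?_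
    ring
  have h3 : ∑ j : Fin m, (c (k.succAbove j) : ℂ) * R.lam (k.succAbove j) =
      -((c k : ℂ) * R.lam k) := by linear_combination hc
  rw [h2, h3]
  have h4 : R.beta k / (c k : ℂ) * -((c k : ℂ) * R.lam k) = -(R.beta k * R.lam k) := by
    field_simp
  rw [h4]
  linear_combination h1

/-- Eliminating the index `k`: if the other numbers are multiplicatively independent we get a
`Data`, hence a contradiction. -/
theorem Rel.elim {m : ℕ} (R : Rel (m + 1)) (k : Fin (m + 1)) (hk : R.beta k ≠ 0)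
    (hind : ∀ e f : Fin m → ℕ, ∏ j, exp (R.lam (k.succAbove j)) ^ e j =
      ∏ j, exp (R.lam (k.succAbove j)) ^ f j → e = f) : False := by
  obtain ⟨a, ha, ha'⟩ := exists_common_den (fun j => exp (R.lam j)) R.hlam
  obtain ⟨b, hb, hb'⟩ := exists_common_den
    (fun j : Option (Fin m) => match j with
      | none => -R.beta0 / R.beta k
      | some j => -R.beta (k.succAbove j) / R.beta k) (by
      intro j
      cases j with
      | none => exact GQ.div_mem (GQ.neg_mem R.hbeta0) (R.hbeta _)
      | some j => exact GQ.div_mem (GQ.neg_mem (R.hbeta _)) (R.hbeta _))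
  refine Data.elim
    { m := m
      lam := fun j => R.lam (k.succAbove j)
      mu := R.lam k
      beta := fun j => -R.beta (k.succAbove j) / R.beta k
      beta0 := -R.beta0 / R.beta k
      a := a
      b := b
      ha := ha
      hb := hb
      hlam := fun j => ha' _
      hmu := ha' _
      hbeta := fun j => hb' (some j)
      hbeta0 := hb' none
      rel := ?_
      b0 := div_ne_zero (neg_ne_zero.2 R.ne) hk
      indep := hind }
  have h1 := R.rel
  rw [Fin.sum_univ_succAbove _ k] at h1
  have h2 : ∑ j : Fin m, -R.beta (k.succAbove j) / R.beta k * R.lam (k.succAbove j) =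
      -(1 / R.beta k) * ∑ j : Fin m, R.beta (k.succAbove j) * R.lam (k.succAbove j) := by
    rw [Finset.mul_sum]
    refine Finset.sum_congr rfl fun j _ => ?_
    ring
  rw [h2]
  field_simp
  linear_combination h1

theorem exp_prod_pow {m : ℕ} (lam : Fin m → ℂ) (e : Fin m → ℕ) :
    ∏ j, exp (lam j) ^ e j = exp (∑ j, (e j : ℂ) * lam j) := by
  rw [exp_sum]
  exact Finset.prod_congr rfl fun j _ => (exp_nat_mul _ _).symm

/-- There is no vanishing inhomogeneous linear form. -/
theorem not_rel (n : ℕ) : IsEmpty (Rel n) := by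
  induction n with
  | zero =>
    refine ⟨fun R => R.ne ?_⟩
    have := R.rel
    simpa using this
  | succ m ih =>
    -- integer independence of the logarithms in any relation of length `m + 1`
    have hA : ∀ (R : Rel (m + 1)) (c : Fin (m + 1) → ℤ), ∑ j, (c j : ℂ) * R.lam j = 0 → c = 0 := by
      intro R c hc
      by_contra hne
      obtain ⟨k, hk⟩ : ∃ k, c k ≠ 0 := by
        by_contra hall
        push Not at hall
        exact hne (funext hall)
      obtain ⟨R'⟩ := R.dep c k hk hc
      exact ih.false R'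
    have hB : ∀ (R : Rel (m + 1)) (k : Fin (m + 1)), R.beta k ≠ 0 := by
      intro R k hk
      obtain ⟨R'⟩ := R.drop k hk
      exact ih.false R'
    refine ⟨fun R => ?_⟩
    by_cases hind : ∀ e f : Fin m → ℕ, ∏ j, exp (R.lam ((Fin.last m).succAbove j)) ^ e j =
      ∏ j, exp (R.lam ((Fin.last m).succAbove j)) ^ f j → e = f
    · exact R.elim (Fin.last m) (hB R _) hind
    · push Not at hind
      obtain ⟨e, f, hef, hne⟩ := hind
      obtain ⟨j₀, hj₀⟩ : ∃ j, e j ≠ f j := by
        by_contra hall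
        push Not at hall
        exact hne (funext hall)
      rw [exp_prod_pow, exp_prod_pow, exp_eq_exp_iff_exists_int] at hef
      obtain ⟨N, hN⟩ := hef
      set i₀ := (Fin.last m).succAbove j₀ with hi₀
      -- the extended coefficient vector
      set c : Fin (m + 1) → ℤ := fun i => Fin.lastCases (motive := fun _ => ℤ) 0
        (fun j => (e j : ℤ) - (f j : ℤ)) i with hc
      have hcl : c (Fin.last m) = 0 := by simp [hc]
      have hcj : ∀ j : Fin m, c ((Fin.last m).succAbove j) = (e j : ℤ) - f j := by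
        intro j
        rw [Fin.succAbove_last]
        simp [hc]
      have hc0 : c i₀ ≠ 0 := by
        rw [hi₀, hcj]
        intro h
        apply hj₀
        omega
      have hc0' : (c i₀ : ℂ) ≠ 0 := by exact_mod_cast hc0
      have hsum : ∑ j, (c j : ℂ) * R.lam j = N * (2 * Real.pi * I) := by
        rw [Fin.sum_univ_succAbove _ (Fin.last m), hcl]
        simp only [hcj]
        have h1 : ∑ j : Fin m, (((e j : ℤ) - (f j : ℤ) : ℤ) : ℂ) *
            R.lam ((Fin.last m).succAbove j) =
            ∑ j : Fin m, (e j : ℂ) * R.lam ((Fin.last m).succAbove j) -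
            ∑ j : Fin m, (f j : ℂ) * R.lam ((Fin.last m).succAbove j) := by
          rw [← Finset.sum_sub_distrib]
          refine Finset.sum_congr rfl fun j _ => ?_
          push_cast; ring
        rw [h1]
        push_cast
        linear_combination hN
      -- the new relation, with `2πi` in place of `lam i₀`
      have hcm : ∀ j, (c j : ℂ) ∈ GQ := fun j => by
        have := ratCast_mem_GQ (c j : ℚ)
        simpa using this
      have hNm : (N : ℂ) ∈ GQ := by
        have := ratCast_mem_GQ (N : ℚ)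
        simpa using this
      let R' : Rel (m + 1) :=
        { lam := Function.update R.lam i₀ (2 * Real.pi * I)
          beta := Function.update (fun j => R.beta j - R.beta i₀ * (c j : ℂ) / (c i₀ : ℂ)) i₀
            (R.beta i₀ * N / (c i₀ : ℂ))
          beta0 := R.beta0
          hlam := by
            intro j
            by_cases hj : j = i₀
            · rw [hj, Function.update_self, exp_two_pi_mul_I]
              exact GQ.one_mem
            · rw [Function.update_of_ne hj]; exact R.hlam j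
          hbeta := by
            intro j
            by_cases hj : j = i₀
            · rw [hj, Function.update_self]
              exact GQ.div_mem (GQ.mul_mem (R.hbeta _) hNm) (hcm _)
            · rw [Function.update_of_ne hj]
              exact GQ.sub_mem (R.hbeta _) (GQ.div_mem (GQ.mul_mem (R.hbeta _) (hcm _)) (hcm _))
          hbeta0 := R.hbeta0
          ne := R.ne
          rel := by
            have h1 := R.rel
            rw [Fin.sum_univ_succAbove _ i₀] at h1 hsum ⊢
            simp only [Function.update_self, Function.update_of_ne (Fin.succAbove_ne i₀ _)]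
            have h2 : ∑ j : Fin m, (R.beta (i₀.succAbove j) -
                R.beta i₀ * (c (i₀.succAbove j) : ℂ) / (c i₀ : ℂ)) * R.lam (i₀.succAbove j) =
                ∑ j : Fin m, R.beta (i₀.succAbove j) * R.lam (i₀.succAbove j) -
                R.beta i₀ / (c i₀ : ℂ) *
                  ∑ j : Fin m, (c (i₀.succAbove j) : ℂ) * R.lam (i₀.succAbove j) := by
              rw [Finset.mul_sum, ← Finset.sum_sub_distrib]
              refine Finset.sum_congr rfl fun j _ => ?_
              ring
            have h3 : ∑ j : Fin m, (c (i₀.succAbove j) : ℂ) * R.lam (i₀.succAbove j) =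
                N * (2 * Real.pi * I) - (c i₀ : ℂ) * R.lam i₀ := by linear_combination hsum
            rw [h2, h3]
            have h4 : R.beta i₀ / (c i₀ : ℂ) * (N * (2 * Real.pi * I) - (c i₀ : ℂ) * R.lam i₀) =
                R.beta i₀ * N / (c i₀ : ℂ) * (2 * Real.pi * I) - R.beta i₀ * R.lam i₀ := by
              field_simp
            rw [h4]
            linear_combination h1 }
      refine R'.elim i₀ (hB R' i₀) fun e' f' hef' => ?_
      rw [exp_prod_pow, exp_prod_pow, exp_eq_exp_iff_exists_int] at hef'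
      obtain ⟨N', hN'⟩ := hef'
      have h5 := hA R' (fun i => if h : i = i₀ then -N' else
        (e' ((finSuccAboveEquiv i₀).symm ⟨i, h⟩) : ℤ) - f' ((finSuccAboveEquiv i₀).symm ⟨i, h⟩)) ?_
      · funext j
        have h6 := congrFun h5 (i₀.succAbove j)
        simp only [Fin.succAbove_ne, dif_neg, not_false_eq_true, Pi.zero_apply] at h6
        have h7 : (finSuccAboveEquiv i₀).symm ⟨i₀.succAbove j, Fin.succAbove_ne i₀ j⟩ = j := by
          rw [Equiv.symm_apply_eq]
          rfl
        rw [h7] at h6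
        omega
      · rw [Fin.sum_univ_succAbove _ i₀]
        have h8 : R'.lam i₀ = 2 * Real.pi * I := Function.update_self _ _ _
        simp only [dif_pos, Fin.succAbove_ne, dif_neg, not_false_eq_true, h8]
        have h7 : ∀ j, (finSuccAboveEquiv i₀).symm ⟨i₀.succAbove j, Fin.succAbove_ne i₀ j⟩ = j := by
          intro j
          rw [Equiv.symm_apply_eq]
          rfl
        simp only [h7]
        have h9 : ∑ j : Fin m, (((e' j : ℤ) - (f' j : ℤ) : ℤ) : ℂ) * R'.lam (i₀.succAbove j) =
            ∑ j : Fin m, (e' j : ℂ) * R'.lam (i₀.succAbove j) -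
            ∑ j : Fin m, (f' j : ℂ) * R'.lam (i₀.succAbove j) := by
          rw [← Finset.sum_sub_distrib]
          refine Finset.sum_congr rfl fun j _ => ?_
          push_cast; ring
        rw [h9]
        push_cast
        linear_combination hN'

/-- **Baker's theorem**, inhomogeneous form, over `ℚ(i)`. -/
theorem baker {ι : Type*} [Fintype ι] (lam beta : ι → ℂ) (beta0 : ℂ)
    (hlam : ∀ j, exp (lam j) ∈ GQ) (hbeta : ∀ j, beta j ∈ GQ) (hbeta0 : beta0 ∈ GQ)
    (h0 : beta0 ≠ 0) : beta0 + ∑ j, beta j * lam j ≠ 0 := by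
  intro h
  let e := Fintype.equivFin ι
  refine (not_rel (Fintype.card ι)).false ⟨fun j => lam (e.symm j), fun j => beta (e.symm j), beta0,
    fun j => hlam _, fun j => hbeta _, hbeta0, h0, ?_⟩
  rw [← h]
  congr 1
  exact Equiv.sum_comp e.symm (fun j => beta j * lam j)

/-- The case needed for the five numbers: `π + e` and `e^e` are not both rational. -/
theorem ad_false (r D : ℚ) (h1 : Real.pi + Real.exp 1 = r) (h2 : Real.exp (Real.exp 1) = D) :
    False := by
  refine baker (ι := Fin 2) ![((Real.exp 1 : ℝ) : ℂ), (Real.pi : ℂ) * I] ![1, -I] (-(r : ℂ))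
    ?_ ?_ ?_ ?_ ?_
  · intro j
    fin_cases j
    · have : exp ((Real.exp 1 : ℝ) : ℂ) = (D : ℂ) := by
        rw [← Complex.ofReal_exp, h2]; simp
      change exp ((Real.exp 1 : ℝ) : ℂ) ∈ GQ
      rw [this]
      exact ratCast_mem_GQ D
    · change exp ((Real.pi : ℂ) * I) ∈ GQ
      rw [exp_pi_mul_I]
      exact GQ.neg_mem GQ.one_mem
  · intro j
    fin_cases j
    · exact GQ.one_mem
    · exact GQ.neg_mem I_mem_GQ
  · exact GQ.neg_mem (ratCast_mem_GQ r)
  · have hr : (0 : ℝ) < r := by
      rw [← h1]; positivity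
    have : (r : ℂ) ≠ 0 := by
      have : r ≠ 0 := by
        rintro rfl
        simp at hr
      exact_mod_cast this
    exact neg_ne_zero.2 this
  · have h3 : ((r : ℝ) : ℂ) = (Real.pi : ℂ) + ((Real.exp 1 : ℝ) : ℂ) := by
      rw [← h1]; push_cast; rfl
    have h4 : (r : ℂ) = (Real.pi : ℂ) + ((Real.exp 1 : ℝ) : ℂ) := by rw [← h3]; simp
    simp only [Fin.sum_univ_two, Matrix.cons_val_zero, Matrix.cons_val_one]
    rw [h4]
    linear_combination (-(Real.pi : ℂ)) * I_sq

end Pool.Agent.BakerQi
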